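import Pool.Agent.Y1.KN.Stm

/-!
# Project KN (helper1): traces on stable subspaces for a division algebra
-/

set_option autoImplicit false

namespace Pool.Agent.Y655.KN

open Module Pool.Agent.Y1.KN

/-- the trace on a module over a division algebra -/
lemma trace_mod (D : Type) [DivisionRing D] [Algebra ℚ D] [FiniteDimensional ℚ D] (W : Type)
    [AddCommGroup W] [Module ℚ W] [FiniteDimensional ℚ W] (ρ : D →ₐ[ℚ] Module.End ℚ W) (δ : D) :
    (finrank ℚ D : ℚ) * LinearMap.trace ℚ W (ρ δ) =
      finrank ℚ W * LinearMap.trace ℚ D (LinearMap.mulLeft ℚ δ) := by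
  classical
  letI : Module D W := Module.compHom W (ρ : D →+* Module.End ℚ W)
  have hsm : ∀ (d : D) (w : W), d • w = ρ d w := fun _ _ => rfl
  haveI : IsScalarTower ℚ D W := ⟨fun q d w => by
    rw [hsm, hsm, map_smul]; rfl⟩
  haveI : Module.Finite D W := Module.Finite.of_restrictScalars_finite ℚ D W
  have b := Module.finBasis ℚ D
  have c := Module.finBasis D W
  have h1 : LinearMap.trace ℚ D (LinearMap.mulLeft ℚ δ) = ∑ i, b.repr (δ * b i) i := by
    rw [LinearMap.trace_eq_matrix_trace ℚ b]
    unfold Matrix.trace
    refine Finset.sum_congr rfl fun i _ => ?_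
    rw [Matrix.diag_apply, LinearMap.toMatrix_apply]
    rfl
  have h2 : LinearMap.trace ℚ W (ρ δ) = finrank D W * ∑ i, b.repr (δ * b i) i := by
    rw [LinearMap.trace_eq_matrix_trace ℚ (b.smulTower c)]
    unfold Matrix.trace
    rw [Fintype.sum_prod_type, Finset.sum_comm]
    have h3 : ∀ j ∈ (Finset.univ : Finset (Fin (finrank D W))),
        ∑ i, (LinearMap.toMatrix (b.smulTower c) (b.smulTower c) (ρ δ)).diag (i, j) =
        ∑ i, b.repr (δ * b i) i := by
      intro j _
      refine Finset.sum_congr rfl fun i _ => ?_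
      rw [Matrix.diag_apply, LinearMap.toMatrix_apply, Module.Basis.smulTower_apply,
        Module.Basis.smulTower_repr]
      have h4 : ρ δ (b i • c j) = (δ * b i) • c j := by
        rw [← hsm, mul_smul]
      simp only [h4, map_smul, Module.Basis.repr_self, Finsupp.smul_single, smul_eq_mul, mul_one,
        Finsupp.single_eq_same]
    rw [Finset.sum_congr rfl h3, Finset.sum_const, Finset.card_univ, Fintype.card_fin,
      nsmul_eq_mul]
  rw [h2, h1, ← Module.finrank_mul_finrank ℚ D W]
  push_cast
  ring

theorem trace_stable : Pool.Agent.Y1.KN.P_trace := by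
  intro V _ _ _ D hD K hK δ hδ
  rcases subsingleton_or_nontrivial V with hV | hV
  · have h1 : finrank ℚ V = 0 := Module.finrank_zero_of_subsingleton
    have h2 : finrank ℚ K = 0 := Module.finrank_zero_of_subsingleton
    rw [h1, h2, Nat.cast_zero, zero_mul, zero_mul]
  · have hnt : Nontrivial D := by
      refine ⟨⟨0, 1, fun h => ?_⟩⟩
      have h1 : (0 : Module.End ℚ V) = 1 := congrArg Subtype.val h
      exact zero_ne_one h1
    -- right inverses
    have hinv : ∀ a : D, a ≠ 0 → ∃ e : D, a * e = 1 := by
      intro a ha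
      have ha' : (a : Module.End ℚ V) ≠ 0 := fun h => ha (Subtype.ext h)
      have hinj : Function.Injective (LinearMap.mulLeft ℚ a) := by
        rw [← LinearMap.ker_eq_bot, LinearMap.ker_eq_bot']
        intro d hd
        apply Subtype.ext
        apply LinearMap.ext
        intro v
        have h1 : (a : Module.End ℚ V) ((d : Module.End ℚ V) v) = 0 := by
          have h2 : (a : Module.End ℚ V) * (d : Module.End ℚ V) = 0 := congrArg Subtype.val hd
          exact LinearMap.congr_fun h2 v
        have h3 := hD a a.2 ha'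
        rw [← map_zero (a : Module.End ℚ V)] at h1
        exact h3 h1
      obtain ⟨e, he⟩ := (LinearMap.injective_iff_surjective.1 hinj) 1
      exact ⟨e, he⟩
    have hunit : ∀ a : D, IsUnit a ∨ a = 0 := by
      intro a
      by_cases ha : a = 0
      · exact Or.inr ha
      · left
        obtain ⟨e, he⟩ := hinv a ha
        have he0 : e ≠ 0 := by
          rintro rfl
          rw [mul_zero] at he
          exact zero_ne_one he
        obtain ⟨f, hf⟩ := hinv e he0
        have haf : a = f := by
          calc a = a * (e * f) := by rw [hf, mul_one]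
            _ = f := by rw [← mul_assoc, he, one_mul]
        rw [← haf] at hf
        exact ⟨⟨a, e, he, hf⟩, rfl⟩
    letI : DivisionRing D := DivisionRing.ofIsUnitOrEqZero hunit
    let ρK : D →ₐ[ℚ] Module.End ℚ K :=
      { toFun := fun d => (d : Module.End ℚ V).restrict (hK d.1 d.2)
        map_one' := by ext v; rfl
        map_mul' := fun a b => by ext v; rfl
        map_zero' := by ext v; rfl
        map_add' := fun a b => by ext v; rfl
        commutes' := fun q => by ext v; rfl }
    have h1 := trace_mod D V D.val ⟨δ, hδ⟩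
    have h2 := trace_mod D K ρK ⟨δ, hδ⟩
    have h3 : D.val ⟨δ, hδ⟩ = δ := rfl
    have h4 : ρK ⟨δ, hδ⟩ = δ.restrict (hK δ hδ) := rfl
    rw [h3] at h1
    rw [h4] at h2
    have h5 : (finrank ℚ D : ℚ) ≠ 0 := by
      exact_mod_cast (Module.finrank_pos (R := ℚ) (M := D)).ne'
    apply mul_left_cancel₀ h5
    linear_combination (finrank ℚ V : ℚ) * h2 - (finrank ℚ K : ℚ) * h1

end Pool.Agent.Y655.KN
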