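import Pool.Agent.Y1.KN.Stm

/-!
# Project KN (helper1): the kernel inequality for sums with random signs
-/

set_option autoImplicit false
set_option linter.unusedSectionVars false

namespace Pool.Agent.Y655.KN

open Matrix Finset Pool.Agent.Y1.KN

variable {n ι : Type} [Fintype n] [DecidableEq n] [Fintype ι] [DecidableEq ι]

/-! ### contractions and projections -/

lemma dot_proj {P : Matrix n n ℝ} (hP : OProj P) (a b : n → ℝ) :
    (P *ᵥ a) ⬝ᵥ b = a ⬝ᵥ (P *ᵥ b) := by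
  rw [dotProduct_comm, dotProduct_mulVec, ← mulVec_transpose, hP.symm, dotProduct_comm]

lemma proj_proj {P : Matrix n n ℝ} (hP : OProj P) (a : n → ℝ) : P *ᵥ (P *ᵥ a) = P *ᵥ a := by
  rw [mulVec_mulVec, hP.idem]

lemma one_sub_proj {P : Matrix n n ℝ} (hP : OProj P) : OProj (1 - P) where
  idem := by
    rw [sub_mul, mul_sub, mul_sub, one_mul, mul_one, one_mul, hP.idem, sub_self, sub_zero]
  symm := by rw [transpose_sub, transpose_one, hP.symm]

lemma proj_orth {P : Matrix n n ℝ} (hP : OProj P) (a b : n → ℝ) :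
    ((1 - P) *ᵥ a) ⬝ᵥ (P *ᵥ b) = 0 := by
  rw [dot_proj (one_sub_proj hP), mulVec_mulVec, sub_mul, one_mul, hP.idem, sub_self, zero_mulVec,
    dotProduct_zero]

lemma pyth {P : Matrix n n ℝ} (hP : OProj P) (a : n → ℝ) :
    a ⬝ᵥ a = ((1 - P) *ᵥ a) ⬝ᵥ ((1 - P) *ᵥ a) + (P *ᵥ a) ⬝ᵥ (P *ᵥ a) := by
  have h1 : a = (1 - P) *ᵥ a + P *ᵥ a := by
    rw [← add_mulVec, sub_add_cancel, one_mulVec]
  have h2 := proj_orth hP a a
  have h3 : (P *ᵥ a) ⬝ᵥ ((1 - P) *ᵥ a) = 0 := by rw [dotProduct_comm, h2]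
  calc a ⬝ᵥ a = ((1 - P) *ᵥ a + P *ᵥ a) ⬝ᵥ ((1 - P) *ᵥ a + P *ᵥ a) := by rw [← h1]
    _ = _ := by rw [dotProduct_add, add_dotProduct, add_dotProduct, h2, h3]; ring

lemma sq_nn (a : n → ℝ) : 0 ≤ a ⬝ᵥ a := by
  unfold dotProduct
  exact Finset.sum_nonneg fun i _ => mul_self_nonneg _

lemma proj_le {P : Matrix n n ℝ} (hP : OProj P) (a : n → ℝ) : (P *ᵥ a) ⬝ᵥ (P *ᵥ a) ≤ a ⬝ᵥ a := by
  rw [pyth hP a]
  have := sq_nn ((1 - P) *ᵥ a)
  linarith

/-- combination of contractions -/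
lemma contr_comb {P Q U W : Matrix n n ℝ} (hP : OProj P) (hQ : OProj Q) (hU : Contr U)
    (hW : Contr W) : Contr ((1 - P) * U * (1 - Q) + P * W * Q) := by
  intro u
  have h1 : ((1 - P) * U * (1 - Q) + P * W * Q) *ᵥ u =
      (1 - P) *ᵥ (U *ᵥ ((1 - Q) *ᵥ u)) + P *ᵥ (W *ᵥ (Q *ᵥ u)) := by
    rw [add_mulVec]
    simp only [mulVec_mulVec, Matrix.mul_assoc]
  rw [h1]
  have h2 := proj_orth hP (U *ᵥ ((1 - Q) *ᵥ u)) (W *ᵥ (Q *ᵥ u))
  have h3 : (P *ᵥ (W *ᵥ (Q *ᵥ u))) ⬝ᵥ ((1 - P) *ᵥ (U *ᵥ ((1 - Q) *ᵥ u))) = 0 := by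
    rw [dotProduct_comm, h2]
  rw [dotProduct_add, add_dotProduct, add_dotProduct, h2, h3, pyth hQ u]
  have h4 := (proj_le (one_sub_proj hP) (U *ᵥ ((1 - Q) *ᵥ u))).trans (hU _)
  have h5 := (proj_le hP (W *ᵥ (Q *ᵥ u))).trans (hW _)
  linarith

lemma contr_neg {W : Matrix n n ℝ} (hW : Contr W) : Contr (-W) := by
  intro u
  rw [neg_mulVec, neg_dotProduct, dotProduct_neg, neg_neg]
  exact hW u

lemma contr_zero : Contr (0 : Matrix n n ℝ) := by
  intro u
  rw [zero_mulVec, dotProduct_zero]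
  exact sq_nn u

lemma contr_entry {V : Matrix n n ℝ} (hV : Contr V) (i j : n) : V i j ^ 2 ≤ 1 := by
  have h := hV (Pi.single j 1)
  rw [mulVec_single_one] at h
  have h1 : (Pi.single j (1 : ℝ) : n → ℝ) ⬝ᵥ (Pi.single j 1) = 1 := by simp
  rw [h1] at h
  refine le_trans ?_ h
  unfold dotProduct
  have h2 : V i j ^ 2 = Vᵀ j i * Vᵀ j i := by rw [transpose_apply, sq]
  rw [h2]
  exact Finset.single_le_sum (f := fun i => Vᵀ j i * Vᵀ j i) (fun i _ => mul_self_nonneg _)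
    (Finset.mem_univ i)

/-- the maximiser -/
lemma exists_max (M : Matrix n n ℝ) : ∃ U : Matrix n n ℝ, Contr U ∧ ∀ V, Contr V →
    trace (Vᵀ * M) ≤ trace (Uᵀ * M) := by
  have hK : IsCompact {V : Matrix n n ℝ | Contr V} := by
    have hc : IsCompact {V : Matrix n n ℝ | ∀ i j, V i j ∈ Set.Icc (-1 : ℝ) 1} := by
      have e : {V : Matrix n n ℝ | ∀ i j, V i j ∈ Set.Icc (-1 : ℝ) 1} =
          (Set.pi Set.univ fun _ : n => Set.pi Set.univ fun _ : n => Set.Icc (-1 : ℝ) 1) := by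
        ext V
        exact ⟨fun h i _ j _ => h i j, fun h i j => h i trivial j trivial⟩
      rw [e]
      exact isCompact_univ_pi fun _ => isCompact_univ_pi fun _ => isCompact_Icc
    refine hc.of_isClosed_subset ?_ ?_
    · have : {V : Matrix n n ℝ | Contr V} = ⋂ u : n → ℝ,
          {V : Matrix n n ℝ | (V *ᵥ u) ⬝ᵥ (V *ᵥ u) ≤ u ⬝ᵥ u} := by
        ext V; simp [Contr]
      rw [this]
      refine isClosed_iInter fun u => isClosed_le ?_ continuous_const
      fun_prop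
    · intro V hV i j
      have := contr_entry hV i j
      rw [Set.mem_Icc]
      constructor <;> nlinarith
  obtain ⟨U, hU, hmax⟩ := hK.exists_isMaxOn ⟨0, contr_zero⟩
    (f := fun V : Matrix n n ℝ => trace (Vᵀ * M)) (by fun_prop)
  exact ⟨U, hU, fun V hV => hmax hV⟩

/-- the maximiser adapted to the kernels -/
lemma exists_max' {M P Q : Matrix n n ℝ} (hP : OProj P) (hQ : OProj Q) (hPM : P * M = 0)
    (hMQ : M * Q = 0) : ∃ U : Matrix n n ℝ, Contr U ∧ (∀ V, Contr V →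
    trace (Vᵀ * M) ≤ trace (Uᵀ * M)) ∧ ∀ W, Contr W → Contr (U + P * W * Q) := by
  obtain ⟨U, hU, hmax⟩ := exists_max M
  refine ⟨(1 - P) * U * (1 - Q), ?_, ?_, ?_⟩
  · have := contr_comb hP hQ hU contr_zero
    rwa [Matrix.mul_zero, Matrix.zero_mul, add_zero] at this
  · intro V hV
    refine (hmax V hV).trans (le_of_eq ?_)
    rw [transpose_mul, transpose_mul, (one_sub_proj hP).symm, (one_sub_proj hQ).symm]
    have h1 : (1 - P) * M = M := by rw [sub_mul, hPM, one_mul, sub_zero]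
    have h2 : M * (1 - Q) = M := by rw [mul_sub, hMQ, mul_one, sub_zero]
    rw [Matrix.mul_assoc, Matrix.mul_assoc, h1, trace_mul_comm (1 - Q), Matrix.mul_assoc, h2]
  · intro W hW
    exact contr_comb hP hQ hU hW

/-! ### signs -/

/-- the sign -/
noncomputable def sg (b : Bool) : ℝ := if b then 1 else -1

lemma sg_not (b : Bool) : sg (!b) = -sg b := by cases b <;> simp [sg]

lemma sg_sq (b : Bool) : sg b * sg b = 1 := by cases b <;> simp [sg]

lemma sMat_eq (A : ι → Matrix n n ℝ) (ε : ι → Bool) : sMat A ε = ∑ i, sg (ε i) • A i := rfl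

/-- change of one sign -/
def fl (i : ι) : Equiv.Perm (ι → Bool) :=
  Function.Involutive.toPerm (fun ε => Function.update ε i (!ε i)) (by
    intro ε
    simp)

lemma fl_apply (i : ι) (ε : ι → Bool) : fl i ε = Function.update ε i (!ε i) := rfl

lemma fl_same (i : ι) (ε : ι → Bool) : fl i ε i = !ε i := by rw [fl_apply]; simp

lemma fl_ne {i j : ι} (h : j ≠ i) (ε : ι → Bool) : fl i ε j = ε j := by
  rw [fl_apply, Function.update_of_ne h]

lemma fl_fl (i : ι) (ε : ι → Bool) : fl i (fl i ε) = ε := by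
  rw [fl_apply, fl_same, fl_apply]
  simp

lemma sMat_fl (A : ι → Matrix n n ℝ) (i : ι) (ε : ι → Bool) :
    sMat A ε = sMat A (fl i ε) + (2 * sg (ε i)) • A i := by
  rw [← sub_eq_iff_eq_add', sMat_eq, sMat_eq, ← Finset.sum_sub_distrib,
    Finset.sum_eq_single i]
  · rw [fl_same, sg_not, ← sub_smul]
    congr 1
    ring
  · intro j _ hj
    rw [fl_ne hj, sub_self]
  · intro h
    exact absurd (Finset.mem_univ i) h

/-- orthogonality of the signs -/
lemma sum_sg (i j : ι) : ∑ ε : ι → Bool, sg (ε i) * sg (ε j) =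
    if i = j then 2 ^ Fintype.card ι else 0 := by
  split_ifs with h
  · subst h
    rw [Finset.sum_congr rfl fun ε _ => sg_sq (ε i), Finset.sum_const, Finset.card_univ,
      Fintype.card_fun, Fintype.card_bool, nsmul_eq_mul, mul_one]
    push_cast
    rfl
  · have h1 := Equiv.sum_comp (fl i) (fun ε : ι → Bool => sg (ε i) * sg (ε j))
    have h2 : ∑ ε : ι → Bool, sg (fl i ε i) * sg (fl i ε j) =
        -∑ ε : ι → Bool, sg (ε i) * sg (ε j) := by
      rw [← Finset.sum_neg_distrib]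
      refine Finset.sum_congr rfl fun ε _ => ?_
      rw [fl_same, sg_not, fl_ne (Ne.symm h)]
      ring
    linarith

lemma sum_sq (a : ι → ℝ) : ∑ ε : ι → Bool, (∑ i, sg (ε i) * a i) ^ 2 =
    2 ^ Fintype.card ι * ∑ i, a i ^ 2 := by
  have h1 : ∀ ε : ι → Bool, (∑ i, sg (ε i) * a i) ^ 2 =
      ∑ i, ∑ j, a i * a j * (sg (ε i) * sg (ε j)) := by
    intro ε
    rw [sq, Finset.sum_mul_sum]
    exact Finset.sum_congr rfl fun i _ => Finset.sum_congr rfl fun j _ => by ring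
  simp_rw [h1]
  rw [Finset.sum_comm, Finset.mul_sum]
  refine Finset.sum_congr rfl fun i _ => ?_
  rw [Finset.sum_comm]
  have h2 : ∀ j ∈ (Finset.univ : Finset ι), ∑ ε : ι → Bool, a i * a j * (sg (ε i) * sg (ε j)) =
      if i = j then a i * a j * 2 ^ Fintype.card ι else 0 := by
    intro j _
    rw [← Finset.mul_sum, sum_sg]
    split_ifs <;> simp
  rw [Finset.sum_congr rfl h2, Finset.sum_ite_eq]
  simp only [Finset.mem_univ, if_true]
  ring

/-! ### the Hilbert-Schmidt norm -/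

/-- the square of the Hilbert-Schmidt norm -/
noncomputable def hs (X : Matrix n n ℝ) : ℝ := ∑ p : n × n, X p.1 p.2 ^ 2

lemma trace_eq (V M : Matrix n n ℝ) : trace (Vᵀ * M) = ∑ p : n × n, V p.1 p.2 * M p.1 p.2 := by
  rw [Fintype.sum_prod_type, Finset.sum_comm]
  unfold trace
  refine Finset.sum_congr rfl fun i _ => ?_
  rw [diag_apply, mul_apply]
  rfl

lemma hs_eq (X : Matrix n n ℝ) : hs X = ∑ j, (X *ᵥ Pi.single j 1) ⬝ᵥ (X *ᵥ Pi.single j 1) := by
  unfold hs
  rw [Fintype.sum_prod_type, Finset.sum_comm]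
  refine Finset.sum_congr rfl fun j _ => ?_
  rw [mulVec_single_one]
  unfold dotProduct
  exact Finset.sum_congr rfl fun i _ => by rw [sq]; rfl

lemma hs_contr {V P : Matrix n n ℝ} (hV : Contr V) (hP : OProj P) : hs (V * P) ≤ trace P := by
  have h1 : hs (V * P) ≤ hs P := by
    rw [hs_eq, hs_eq]
    refine Finset.sum_le_sum fun j _ => ?_
    rw [← mulVec_mulVec]
    exact hV _
  refine h1.trans (le_of_eq ?_)
  have h2 : trace (Pᵀ * P) = hs P := by
    rw [trace_eq]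
    exact Finset.sum_congr rfl fun p _ => (sq _).symm
  rw [← h2, hP.symm, hP.idem]

theorem signs : Pool.Agent.Y1.KN.P_signs := by
  intro n ι _ _ _ _ A P P₁ P₂ hA hP hAP hP1 hP2 h1 h2
  obtain ⟨N, hN⟩ : ∃ N : ℕ, N = Fintype.card ι := ⟨_, rfl⟩
  -- the maximisers
  have hex : ∀ ε : ι → Bool, ∃ U : Matrix n n ℝ, Contr U ∧ (∀ V, Contr V →
      trace (Vᵀ * sMat A ε) ≤ trace (Uᵀ * sMat A ε)) ∧
      ∀ W, Contr W → Contr (U + P₁ ε * W * P₂ ε) :=
    fun ε => exists_max' (hP1 ε) (hP2 ε) (h1 ε) (h2 ε)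
  choose U hU hmax hcomb using hex
  -- the inequality for one sign
  have h3 : ∀ (i : ι) (ε : ι → Bool), trace ((U ε)ᵀ * sMat A ε) -
      2 * (sg (ε i) * trace ((U ε)ᵀ * A i)) + 2 * trace (P₁ ε * A i * P₂ ε * (A i)ᵀ) ≤
      trace ((U (fl i ε))ᵀ * sMat A (fl i ε)) := by
    intro i ε
    obtain ⟨s, hs⟩ : ∃ s : ℝ, s = sg (fl i ε i) := ⟨_, rfl⟩
    have hs' : s = -sg (ε i) := by rw [hs, fl_same, sg_not]
    have hss : s * s = 1 := by rw [hs, sg_sq]
    have hM : sMat A (fl i ε) = sMat A ε + (2 * s) • A i := by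
      have := sMat_fl A i (fl i ε)
      rwa [fl_fl, ← hs] at this
    have hW : Contr (s • A i) := by
      rw [hs]
      unfold sg
      split_ifs
      · rw [one_smul]; exact hA i
      · rw [neg_smul, one_smul]; exact contr_neg (hA i)
    have h4 := hmax (fl i ε) _ (hcomb ε _ hW)
    refine le_trans (le_of_eq ?_) h4
    have e1 : trace ((P₁ ε * (s • A i) * P₂ ε)ᵀ * sMat A ε) = 0 := by
      rw [transpose_mul, transpose_mul, (hP1 ε).symm, Matrix.mul_assoc, Matrix.mul_assoc, h1,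
        Matrix.mul_zero, Matrix.mul_zero, trace_zero]
    have e2 : trace ((P₁ ε * (s • A i) * P₂ ε)ᵀ * A i) =
        s * trace (P₁ ε * A i * P₂ ε * (A i)ᵀ) := by
      rw [Matrix.mul_smul, Matrix.smul_mul, transpose_smul, Matrix.smul_mul, trace_smul, smul_eq_mul,
        ← trace_transpose (P₁ ε * A i * P₂ ε * (A i)ᵀ), transpose_mul _ (A i)ᵀ,
        transpose_transpose, trace_mul_comm]
    rw [hM, transpose_add, Matrix.add_mul, Matrix.mul_add, Matrix.mul_add, trace_add, trace_add,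
      trace_add, e1, Matrix.mul_smul, Matrix.mul_smul, trace_smul, trace_smul, e2, smul_eq_mul,
      smul_eq_mul]
    have : 2 * s * (s * trace (P₁ ε * A i * P₂ ε * (A i)ᵀ)) =
        2 * trace (P₁ ε * A i * P₂ ε * (A i)ᵀ) := by
      linear_combination 2 * trace (P₁ ε * A i * P₂ ε * (A i)ᵀ) * hss
    rw [this, hs']
    ring
  -- the sum over the signs
  have h5 : ∀ i : ι, ∑ ε, trace (P₁ ε * A i * P₂ ε * (A i)ᵀ) ≤
      ∑ ε, sg (ε i) * trace ((U ε)ᵀ * A i) := by
    intro i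
    have h6 := Finset.sum_le_sum fun (ε : ι → Bool) (_ : ε ∈ Finset.univ) => h3 i ε
    rw [Equiv.sum_comp (fl i) (fun ε : ι → Bool => trace ((U ε)ᵀ * sMat A ε)),
      Finset.sum_add_distrib, Finset.sum_sub_distrib, ← Finset.mul_sum, ← Finset.mul_sum] at h6
    linarith
  rw [Finset.sum_comm]
  refine (Finset.sum_le_sum fun i _ => h5 i).trans ?_
  rw [Finset.sum_comm]
  have h6 : ∀ ε : ι → Bool, ∑ i, sg (ε i) * trace ((U ε)ᵀ * A i) =
      ∑ p : n × n, (U ε * P) p.1 p.2 * sMat A ε p.1 p.2 := by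
    intro ε
    have e1 : ∑ i, sg (ε i) * trace ((U ε)ᵀ * A i) = trace ((U ε)ᵀ * sMat A ε) := by
      rw [sMat_eq, Finset.mul_sum, trace_sum]
      exact Finset.sum_congr rfl fun i _ => by rw [Matrix.mul_smul, trace_smul, smul_eq_mul]
    have e2 : sMat A ε * P = sMat A ε := by
      rw [sMat_eq, Finset.sum_mul]
      exact Finset.sum_congr rfl fun i _ => by rw [Matrix.smul_mul, hAP]
    rw [e1, ← trace_eq, transpose_mul, hP.symm, Matrix.mul_assoc, trace_mul_comm P, Matrix.mul_assoc,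
      e2]
  simp_rw [h6]
  -- Cauchy-Schwarz
  rw [← Finset.sum_product' (s := (Finset.univ : Finset (ι → Bool)))
    (t := (Finset.univ : Finset (n × n)))
    (f := fun ε p => (U ε * P) p.1 p.2 * sMat A ε p.1 p.2)]
  refine (Real.sum_mul_le_sqrt_mul_sqrt _ _ _).trans ?_
  have hT : 0 ≤ trace P := by
    have := hs_contr (contr_zero (n := n)) hP
    refine le_trans ?_ this
    unfold hs
    positivity
  have h7 : ∑ x ∈ (Finset.univ : Finset (ι → Bool)) ×ˢ (Finset.univ : Finset (n × n)),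
      (U x.1 * P) x.2.1 x.2.2 ^ 2 ≤ 2 ^ N * trace P := by
    rw [Finset.sum_product' (f := fun (ε : ι → Bool) (p : n × n) => (U ε * P) p.1 p.2 ^ 2)]
    have : ∀ ε ∈ (Finset.univ : Finset (ι → Bool)), ∑ p : n × n, (U ε * P) p.1 p.2 ^ 2 ≤ trace P :=
      fun ε _ => hs_contr (hU ε) hP
    refine (Finset.sum_le_sum this).trans (le_of_eq ?_)
    rw [Finset.sum_const, Finset.card_univ, Fintype.card_fun, Fintype.card_bool, nsmul_eq_mul, hN]
    push_cast
    rfl
  have h8 : ∑ x ∈ (Finset.univ : Finset (ι → Bool)) ×ˢ (Finset.univ : Finset (n × n)),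
      sMat A x.1 x.2.1 x.2.2 ^ 2 ≤ 2 ^ N * (N * trace P) := by
    rw [Finset.sum_product' (f := fun (ε : ι → Bool) (p : n × n) => sMat A ε p.1 p.2 ^ 2),
      Finset.sum_comm]
    have e1 : ∀ p ∈ (Finset.univ : Finset (n × n)), ∑ ε : ι → Bool, sMat A ε p.1 p.2 ^ 2 =
        2 ^ N * ∑ i, A i p.1 p.2 ^ 2 := by
      intro p _
      rw [hN, ← sum_sq]
      refine Finset.sum_congr rfl fun ε _ => ?_
      rw [sMat_eq, Matrix.sum_apply]
      rfl
    rw [Finset.sum_congr rfl e1, ← Finset.mul_sum, Finset.sum_comm]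
    refine mul_le_mul_of_nonneg_left ?_ (by positivity)
    have e2 : ∀ i ∈ (Finset.univ : Finset ι), ∑ p : n × n, A i p.1 p.2 ^ 2 ≤ trace P := by
      intro i _
      have := hs_contr (hA i) hP
      rwa [hAP] at this
    refine (Finset.sum_le_sum e2).trans (le_of_eq ?_)
    rw [Finset.sum_const, Finset.card_univ, nsmul_eq_mul, hN]
  calc _ ≤ √(2 ^ N * trace P) * √(2 ^ N * (N * trace P)) :=
        mul_le_mul (Real.sqrt_le_sqrt h7) (Real.sqrt_le_sqrt h8) (Real.sqrt_nonneg _)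
          (Real.sqrt_nonneg _)
    _ = √((2 ^ N * trace P) ^ 2 * N) := by
        rw [← Real.sqrt_mul (by positivity)]
        congr 1
        ring
    _ = 2 ^ N * (trace P * √N) := by
        rw [Real.sqrt_mul (by positivity), Real.sqrt_sq (by positivity)]
        ring
    _ = _ := by rw [hN]

end Pool.Agent.Y655.KN
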